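import Mathlib

open Filter Topology

namespace V11216.IS

/-- A partition of `[0,1]` into intervals, given by the list of its interval lengths from
left to right. -/
def IsPartition (I : List ℝ) : Prop := (∀ x ∈ I, 0 < x) ∧ I.sum = 1

/-- `J` arises from `I` by cutting one of its intervals into two. -/
def Cuts (I J : List ℝ) : Prop :=
  ∃ (u v : List ℝ) (a b : ℝ), I = u ++ (a + b) :: v ∧ J = u ++ a :: b :: v

/-- `S 1, …, S n` is a strategy of length `n`. -/
def IsStrategy (n : ℕ) (S : ℕ → List ℝ) : Prop :=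
  (∀ t, 1 ≤ t → t ≤ n → IsPartition (S t) ∧ (S t).length = t) ∧
    ∀ t, 1 ≤ t → t < n → Cuts (S t) (S (t + 1))

/-- The ratio of the longest to the shortest interval. -/
noncomputable def discP (I : List ℝ) : ℝ := sSup {r | ∃ x ∈ I, ∃ y ∈ I, r = x / y}

/-- `disc_n(S)`, the maximum of `disc(I_t)` over `1 ≤ t ≤ n`. -/
noncomputable def discS (n : ℕ) (S : ℕ → List ℝ) : ℝ :=
  sSup {r | ∃ t, 1 ≤ t ∧ t ≤ n ∧ r = discP (S t)}

/-- `disc(n)`. -/
noncomputable def disc (n : ℕ) : ℝ := sInf {D | ∃ S, IsStrategy n S ∧ D = discS n S}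

lemma finP (I : List ℝ) : {r : ℝ | ∃ x ∈ I, ∃ y ∈ I, r = x / y}.Finite := by
  have h : {r : ℝ | ∃ x ∈ I, ∃ y ∈ I, r = x / y} =
      Set.image2 (fun x y : ℝ => x / y) {x | x ∈ I} {x | x ∈ I} := by
    ext r
    simp only [Set.mem_image2]
    constructor
    · rintro ⟨x, hx, y, hy, rfl⟩; exact ⟨x, hx, y, hy, rfl⟩
    · rintro ⟨x, hx, y, hy, rfl⟩; exact ⟨x, hx, y, hy, rfl⟩
  rw [h]
  exact Set.Finite.image2 _ (List.finite_toSet I) (List.finite_toSet I)

lemma finS (n : ℕ) (S : ℕ → List ℝ) :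
    {r : ℝ | ∃ t, 1 ≤ t ∧ t ≤ n ∧ r = discP (S t)}.Finite := by
  have h : {r : ℝ | ∃ t, 1 ≤ t ∧ t ≤ n ∧ r = discP (S t)} =
      (fun t => discP (S t)) '' (Set.Icc 1 n) := by
    ext r
    simp only [Set.mem_image, Set.mem_Icc]
    constructor
    · rintro ⟨t, h1, h2, rfl⟩; exact ⟨t, ⟨h1, h2⟩, rfl⟩
    · rintro ⟨t, ⟨h1, h2⟩, rfl⟩; exact ⟨t, h1, h2, rfl⟩
  rw [h]
  exact (Set.finite_Icc 1 n).image _

lemma le_discS {n : ℕ} {S : ℕ → List ℝ} {t : ℕ} (h1 : 1 ≤ t) (h2 : t ≤ n)
    {x y : ℝ} (hx : x ∈ S t) (hy : y ∈ S t) : x / y ≤ discS n S := by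
  have a : x / y ≤ discP (S t) := le_csSup (finP _).bddAbove ⟨x, hx, y, hy, rfl⟩
  have b : discP (S t) ≤ discS n S := le_csSup (finS n S).bddAbove ⟨t, h1, h2, rfl⟩
  exact a.trans b

lemma discS_le {n : ℕ} (hn : 1 ≤ n) {S : ℕ → List ℝ} (hS : IsStrategy n S) {B : ℝ}
    (h : ∀ t, 1 ≤ t → t ≤ n → ∀ x ∈ S t, ∀ y ∈ S t, x / y ≤ B) : discS n S ≤ B := by
  apply csSup_le
  · exact ⟨discP (S 1), 1, le_rfl, hn, rfl⟩
  · rintro r ⟨t, h1, h2, rfl⟩
    apply csSup_le
    · have hl := (hS.1 t h1 h2).2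
      have hne : S t ≠ [] := by
        intro h0; rw [h0] at hl; simp at hl; omega
      obtain ⟨x, hx⟩ := List.exists_mem_of_ne_nil _ hne
      exact ⟨x / x, x, hx, x, hx, rfl⟩
    · rintro r ⟨x, hx, y, hy, rfl⟩
      exact h t h1 h2 x hx y hy

/-- the largest entry -/
noncomputable def mx (I : List ℝ) : ℝ := I.foldr max 0

lemma le_mx {I : List ℝ} {x : ℝ} (hx : x ∈ I) : x ≤ mx I := by
  induction I with
  | nil => simp at hx
  | cons a I ih =>
    simp only [mx, List.foldr_cons]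
    rcases List.mem_cons.1 hx with rfl | h
    · exact le_max_left _ _
    · exact (ih h).trans (le_max_right _ _)

lemma mx_mem {I : List ℝ} (hne : I ≠ []) (hpos : ∀ x ∈ I, 0 < x) : mx I ∈ I := by
  induction I with
  | nil => exact absurd rfl hne
  | cons a I ih =>
    have e : mx (a :: I) = max a (mx I) := rfl
    rw [e]
    by_cases hI : I = []
    · subst hI
      have : mx ([] : List ℝ) = 0 := rfl
      rw [this, max_eq_left (hpos a (by simp)).le]
      simp
    · rcases max_choice a (mx I) with h | h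
      · rw [h]; simp
      · rw [h]
        exact List.mem_cons_of_mem _ (ih hI (fun x hx => hpos x (List.mem_cons_of_mem _ hx)))

section lower

variable {n : ℕ} {S : ℕ → List ℝ} {D : ℝ}

lemma ne_nil_of (hS : IsStrategy n S) {t : ℕ} (h1 : 1 ≤ t) (h2 : t ≤ n) : S t ≠ [] := by
  have hl := (hS.1 t h1 h2).2
  intro h0; rw [h0] at hl; simp at hl; omega

lemma mx_mem' (hS : IsStrategy n S) {t : ℕ} (h1 : 1 ≤ t) (h2 : t ≤ n) : mx (S t) ∈ S t :=
  mx_mem (ne_nil_of hS h1 h2) (hS.1 t h1 h2).1.1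

lemma mx_pos (hS : IsStrategy n S) {t : ℕ} (h1 : 1 ≤ t) (h2 : t ≤ n) : 0 < mx (S t) :=
  (hS.1 t h1 h2).1.1 _ (mx_mem' hS h1 h2)

lemma step_le (hS : IsStrategy n S) {t : ℕ} (h1 : 1 ≤ t) (h2 : t < n) (hD0 : 0 ≤ D)
    (hD : ∀ x ∈ S (t + 1), ∀ y ∈ S (t + 1), x ≤ D * y) :
    mx (S (t + 1)) ≤ D / 2 * mx (S t) := by
  obtain ⟨u, v, a, b, hI, hJ⟩ := hS.2 t h1 h2
  have hm := mx_mem' hS (t := t + 1) (by omega) (by omega)
  have hab : a + b ≤ mx (S t) := le_mx (by rw [hI]; simp)
  have ha : a ∈ S (t + 1) := by rw [hJ]; simp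
  have hb : b ∈ S (t + 1) := by rw [hJ]; simp
  rcases le_total a b with h | h
  · have := hD _ hm a ha
    nlinarith
  · have := hD _ hm b hb
    nlinarith

lemma iter_le (hS : IsStrategy n S) (hD0 : 0 ≤ D)
    (hD : ∀ t, 1 ≤ t → t ≤ n → ∀ x ∈ S t, ∀ y ∈ S t, x ≤ D * y) {t : ℕ} (h1 : 1 ≤ t) :
    ∀ k : ℕ, t + k ≤ n → mx (S (t + k)) ≤ (D / 2) ^ k * mx (S t) := by
  intro k
  induction k with
  | zero => intro _; simp
  | succ k ih =>
    intro hk
    have h := ih (by omega)
    have h' := step_le hS (t := t + k) (by omega) (by omega) hD0 (hD (t + k + 1) (by omega) (by omega))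
    rw [← add_assoc, pow_succ']
    calc mx (S (t + k + 1)) ≤ D / 2 * mx (S (t + k)) := h'
      _ ≤ D / 2 * ((D / 2) ^ k * mx (S t)) := by
        apply mul_le_mul_of_nonneg_left h; positivity
      _ = _ := by ring

/-- number of intervals longer than `L` -/
noncomputable def cnt (L : ℝ) (I : List ℝ) : ℕ := by
  classical exact I.countP (fun x => decide (L < x))

lemma cnt_append (L : ℝ) (I J : List ℝ) : cnt L (I ++ J) = cnt L I + cnt L J := by
  simp [cnt]

lemma cnt_cons_gt {L x : ℝ} (h : L < x) (I : List ℝ) : cnt L (x :: I) = cnt L I + 1 := by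
  simp [cnt, h]

lemma cnt_cons_le {L x : ℝ} (h : x ≤ L) (I : List ℝ) : cnt L (x :: I) = cnt L I := by
  simp [cnt, not_lt.2 h]

lemma cnt_cons_le_succ (L x : ℝ) (I : List ℝ) : cnt L (x :: I) ≤ cnt L I + 1 := by
  by_cases h : L < x
  · rw [cnt_cons_gt h]
  · rw [cnt_cons_le (not_lt.1 h)]; omega

lemma le_cnt_cons (L x : ℝ) (I : List ℝ) : cnt L I ≤ cnt L (x :: I) := by
  by_cases h : L < x
  · rw [cnt_cons_gt h]; omega
  · rw [cnt_cons_le (not_lt.1 h)]

lemma cnt_eq_length {L : ℝ} {I : List ℝ} (h : ∀ x ∈ I, L < x) : cnt L I = I.length := by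
  induction I with
  | nil => simp [cnt]
  | cons a I ih =>
    rw [cnt_cons_gt (h a (by simp)), ih (fun x hx => h x (List.mem_cons_of_mem _ hx))]
    simp

lemma cnt_eq_zero {L : ℝ} {I : List ℝ} (h : ∀ x ∈ I, x ≤ L) : cnt L I = 0 := by
  induction I with
  | nil => simp [cnt]
  | cons a I ih =>
    rw [cnt_cons_le (h a (by simp)), ih (fun x hx => h x (List.mem_cons_of_mem _ hx))]

lemma cnt_step {L : ℝ} {I J : List ℝ} (h : Cuts I J) : cnt L I ≤ cnt L J + 1 := by
  obtain ⟨u, v, a, b, rfl, rfl⟩ := h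
  rw [cnt_append, cnt_append]
  have h1 := cnt_cons_le_succ L (a + b) v
  have h2 := le_cnt_cons L b v
  have h3 := le_cnt_cons L a (b :: v)
  omega

lemma cnt_iter {L : ℝ} (hS : IsStrategy n S) {t : ℕ} (h1 : 1 ≤ t) :
    ∀ k : ℕ, t + k ≤ n → cnt L (S t) ≤ cnt L (S (t + k)) + k := by
  intro k
  induction k with
  | zero => intro _; simp
  | succ k ih =>
    intro hk
    have h := ih (by omega)
    have h' := cnt_step (L := L) (hS.2 (t + k) (by omega) (by omega))
    have e : t + (k + 1) = t + k + 1 := by omega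
    rw [e]
    omega

lemma exists_pow (hn : 1 ≤ n) (hS : IsStrategy n S) (hD0 : 0 < D) (hD2 : D < 2)
    (hD : ∀ t, 1 ≤ t → t ≤ n → ∀ x ∈ S t, ∀ y ∈ S t, x ≤ D * y) :
    ∃ K : ℕ, n ≤ 2 * K ∧ 1 / 2 ≤ (D / 2) ^ K := by
  classical
  set L := mx (S n) with hL
  have hLpos : 0 < L := mx_pos hS hn le_rfl
  have hex : ∃ t, 1 ≤ t ∧ mx (S t) ≤ 2 * L := ⟨n, hn, by linarith⟩
  set t0 := Nat.find hex with ht0
  obtain ⟨h1, h2⟩ := Nat.find_spec hex
  have h3 : t0 ≤ n := Nat.find_min' hex ⟨hn, by linarith⟩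
  -- at most one short interval
  have h4 : t0 ≤ cnt L (S t0) + 1 := by
    by_cases h : t0 = 1
    · omega
    · have h1' : 1 ≤ t0 := h1
      obtain ⟨s, hs⟩ : ∃ s, t0 = s + 1 := ⟨t0 - 1, by omega⟩
      have hs1 : 1 ≤ s := by omega
      have hsn : s < n := by omega
      have hbig : 2 * L < mx (S s) := by
        have := Nat.find_min hex (m := s) (by omega)
        push Not at this
        exact this hs1
      have hall : ∀ y ∈ S s, L < y := by
        intro y hy
        have hy0 := (hS.1 s hs1 hsn.le).1.1 y hy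
        have := hD s hs1 hsn.le _ (mx_mem' hS hs1 hsn.le) y hy
        nlinarith
      have hc := cnt_eq_length hall
      rw [(hS.1 s hs1 hsn.le).2] at hc
      obtain ⟨u, v, a, b, hI, hJ⟩ := hS.2 s hs1 hsn
      have hmem := mx_mem' hS hs1 hsn.le
      have hab : 2 * L < a + b := by
        rw [hI] at hmem
        have hcase : mx (u ++ (a + b) :: v) = a + b ∨ mx (u ++ (a + b) :: v) ∈ u ++ a :: b :: v := by
          rcases List.mem_append.1 hmem with h | h
          · right; simp only [List.mem_append]; left; exact h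
          · rcases List.mem_cons.1 h with h | h
            · left; exact h
            · right; simp only [List.mem_append, List.mem_cons]; right; right; right; exact h
        rcases hcase with h | h
        · rw [hI] at hbig; linarith
        · exfalso
          rw [← hJ] at h
          have := le_mx h
          rw [← hI] at this
          have h2' : mx (S (s + 1)) ≤ 2 * L := by rw [← hs]; exact h2
          linarith
      have hc2 : cnt L (S s) = cnt L u + cnt L v + 1 := by
        rw [hI, cnt_append, cnt_cons_gt (by linarith)]; omega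
      have hc3 : cnt L u + cnt L v + 1 ≤ cnt L (S t0) := by
        rw [hs, hJ, cnt_append]
        rcases lt_or_ge L a with h | h
        · rw [cnt_cons_gt h]
          have := le_cnt_cons L b v
          omega
        · have hb : L < b := by linarith
          rw [cnt_cons_le h, cnt_cons_gt hb]
          omega
      omega
  have hcn : cnt L (S n) = 0 := cnt_eq_zero (fun x hx => le_mx hx)
  obtain ⟨k, hk⟩ : ∃ k, n = t0 + k := ⟨n - t0, by omega⟩
  have h5 : cnt L (S t0) ≤ k := by
    have := cnt_iter (L := L) hS h1 k (by omega)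
    rw [← ht0, ← hk, hcn] at this
    omega
  have h6 : L ≤ (D / 2) ^ k * mx (S t0) := by
    have := iter_le hS hD0.le hD h1 k (by omega)
    rw [← ht0, ← hk] at this
    exact this
  have hpk : 0 < (D / 2) ^ k := by positivity
  by_cases hcase : t0 ≤ cnt L (S t0)
  · refine ⟨k, by omega, ?_⟩
    have : L ≤ (D / 2) ^ k * (2 * L) := h6.trans (mul_le_mul_of_nonneg_left h2 hpk.le)
    by_contra hcon
    push Not at hcon
    nlinarith
  · refine ⟨k + 1, by omega, ?_⟩
    have hex' : ∃ p ∈ S t0, p ≤ L := by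
      by_contra hcon
      push Not at hcon
      have := cnt_eq_length hcon
      rw [(hS.1 t0 h1 h3).2] at this
      omega
    obtain ⟨p, hp, hpL⟩ := hex'
    have h7 : mx (S t0) ≤ D * L := by
      have := hD t0 h1 h3 _ (mx_mem' hS h1 h3) p hp
      nlinarith
    have : L ≤ (D / 2) ^ k * (D * L) := h6.trans (mul_le_mul_of_nonneg_left h7 hpk.le)
    by_contra hcon
    push Not at hcon
    rw [pow_succ] at hcon
    nlinarith

lemma lower_bound (hn : 1 ≤ n) (hS : IsStrategy n S) :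
    (2 : ℝ) ^ (1 - 1 / (((n + 1) / 2 : ℕ) : ℝ)) ≤ discS n S := by
  set m := (n + 1) / 2 with hm
  have hm1 : 1 ≤ m := by omega
  have hmR : (0 : ℝ) < m := by exact_mod_cast hm1
  by_cases hD2 : 2 ≤ discS n S
  · refine le_trans ?_ hD2
    calc (2 : ℝ) ^ (1 - 1 / (m : ℝ)) ≤ (2 : ℝ) ^ (1 : ℝ) := by
          apply Real.rpow_le_rpow_of_exponent_le (by norm_num)
          have : 0 < 1 / (m : ℝ) := by positivity
          linarith
      _ = 2 := by norm_num
  · push Not at hD2
    have hD0 : 0 < discS n S := by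
      have h := le_discS (n := n) (S := S) (t := 1) le_rfl hn (mx_mem' hS le_rfl hn) (mx_mem' hS le_rfl hn)
      have : 0 < mx (S 1) / mx (S 1) := by
        have := mx_pos hS le_rfl hn
        positivity
      linarith
    have hD : ∀ t, 1 ≤ t → t ≤ n → ∀ x ∈ S t, ∀ y ∈ S t, x ≤ discS n S * y := by
      intro t h1 h2 x hx y hy
      have := le_discS h1 h2 hx hy
      have hy0 := (hS.1 t h1 h2).1.1 y hy
      rwa [div_le_iff₀ hy0] at this
    obtain ⟨K, hK1, hK2⟩ := exists_pow hn hS hD0 hD2 hD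
    have hmK : m ≤ K := by omega
    have h1 : (1 : ℝ) / 2 ≤ (discS n S / 2) ^ m := by
      refine hK2.trans ?_
      apply pow_le_pow_of_le_one (by positivity) (by linarith) hmK
    have h2 : ((2 : ℝ) ^ (-(1 / (m : ℝ)))) ^ m = 1 / 2 := by
      rw [← Real.rpow_natCast, ← Real.rpow_mul (by norm_num)]
      have : -(1 / (m : ℝ)) * (m : ℝ) = -1 := by field_simp
      rw [this, Real.rpow_neg_one]; norm_num
    have h3 : (2 : ℝ) ^ (-(1 / (m : ℝ))) ≤ discS n S / 2 := by
      have hle : ((2 : ℝ) ^ (-(1 / (m : ℝ)))) ^ m ≤ (discS n S / 2) ^ m := by rw [h2]; exact h1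
      exact le_of_pow_le_pow_left₀ (by omega) (by positivity) hle
    have h4 : (2 : ℝ) ^ (1 - 1 / (m : ℝ)) = 2 * (2 : ℝ) ^ (-(1 / (m : ℝ))) := by
      rw [sub_eq_add_neg, Real.rpow_add (by norm_num), Real.rpow_one]
    rw [h4]; linarith

end lower


/-! ### The upper bound -/

/-- chains of multisets of lengths, reached at time `k` with all ratios at most `B` -/
inductive Reach (B : ℝ) : ℕ → Multiset ℝ → Prop
  | base : Reach B 1 {1}
  | step {k : ℕ} {R : Multiset ℝ} {a b : ℝ} (h : Reach B k ((a + b) ::ₘ R))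
      (hpos : ∀ x ∈ a ::ₘ b ::ₘ R, 0 < x)
      (hB : ∀ x ∈ a ::ₘ b ::ₘ R, ∀ y ∈ a ::ₘ b ::ₘ R, x ≤ B * y) :
      Reach B (k + 1) (a ::ₘ b ::ₘ R)

lemma Reach.exists {B : ℝ} (hB1 : 1 ≤ B) {k : ℕ} {M : Multiset ℝ} (h : Reach B k M) :
    1 ≤ k ∧ ∃ S : ℕ → List ℝ, IsStrategy k S ∧ (S k : Multiset ℝ) = M ∧
      ∀ t, 1 ≤ t → t ≤ k → ∀ x ∈ S t, ∀ y ∈ S t, x ≤ B * y := by
  induction h with
  | base =>
    refine ⟨le_rfl, fun _ => [1], ⟨?_, ?_⟩, by simp, ?_⟩
    · intro t h1 h2
      have : t = 1 := by omega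
      subst this
      exact ⟨⟨by simp, by simp⟩, by simp⟩
    · intro t h1 h2; omega
    · intro t _ _ x hx y hy
      simp only [List.mem_singleton] at hx hy
      subst hx; subst hy; linarith
  | @step k R a b h hpos hB ih =>
    obtain ⟨hk, S, hS, hM, hb⟩ := ih
    have hmem : a + b ∈ S k := by
      have : a + b ∈ (S k : Multiset ℝ) := by rw [hM]; simp
      simpa using this
    obtain ⟨u, v, huv⟩ := List.append_of_mem hmem
    have hR : ((u ++ v : List ℝ) : Multiset ℝ) = R := by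
      have e : ((S k : List ℝ) : Multiset ℝ) = (a + b) ::ₘ ((u ++ v : List ℝ) : Multiset ℝ) := by
        rw [huv, Multiset.cons_coe, Multiset.coe_eq_coe]
        exact List.perm_middle
      rw [hM] at e
      exact ((Multiset.cons_inj_right _).1 e).symm
    have hJ : ((u ++ a :: b :: v : List ℝ) : Multiset ℝ) = a ::ₘ b ::ₘ R := by
      rw [← hR, Multiset.cons_coe, Multiset.cons_coe, Multiset.coe_eq_coe]
      refine List.perm_middle.trans (List.Perm.cons _ List.perm_middle)
    have hmemJ : ∀ x, x ∈ (u ++ a :: b :: v) ↔ x ∈ a ::ₘ b ::ₘ R := by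
      intro x; rw [← hJ]; simp
    refine ⟨by omega, Function.update S (k + 1) (u ++ a :: b :: v), ⟨?_, ?_⟩, ?_, ?_⟩
    · intro t h1 h2
      by_cases ht : t = k + 1
      · subst ht
        rw [Function.update_self]
        have hs := hS.1 k hk le_rfl
        refine ⟨⟨fun x hx => hpos x ((hmemJ x).1 hx), ?_⟩, ?_⟩
        · have := hs.1.2
          rw [huv] at this
          simp only [List.sum_append, List.sum_cons] at this ⊢
          linarith
        · have := hs.2
          rw [huv] at this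
          simp only [List.length_append, List.length_cons] at this ⊢
          omega
      · rw [Function.update_of_ne ht]
        exact hS.1 t h1 (by omega)
    · intro t h1 h2
      rw [Function.update_of_ne (by omega : t ≠ k + 1)]
      by_cases ht : t = k
      · subst ht
        rw [Function.update_self]
        exact ⟨u, v, a, b, huv, rfl⟩
      · rw [Function.update_of_ne (by omega : t + 1 ≠ k + 1)]
        exact hS.2 t h1 (by omega)
    · rw [Function.update_self, hJ]
    · intro t h1 h2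
      by_cases ht : t = k + 1
      · subst ht
        rw [Function.update_self]
        intro x hx y hy
        exact hB x ((hmemJ x).1 hx) y ((hmemJ y).1 hy)
      · rw [Function.update_of_ne ht]
        exact hb t h1 (by omega)

/-- merging backwards the two smallest lengths -/
lemma reach_merge {ρ : ℝ} (h1 : 1 ≤ ρ) (h2 : ρ ≤ 2) :
    ∀ (k : ℕ) (x : List ℝ), x.length = k + 1 → x.sum = 1 → (∀ a ∈ x, 0 < a) →
      x.Pairwise (fun a b => ρ * a ≤ b) → (∀ a ∈ x, ∀ b ∈ x, b ≤ 2 / ρ * a) →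
      Reach (2 / ρ) (k + 1) (x : Multiset ℝ) := by
  have hρ : 0 < ρ := by linarith
  intro k
  induction k with
  | zero =>
    intro x hl hs hpos hp hB
    obtain ⟨a, rfl⟩ := List.length_eq_one_iff.1 hl
    simp only [List.sum_singleton] at hs
    subst hs
    exact Reach.base
  | succ k ih =>
    intro x hl hs hpos hp hB
    match x, hl, hs, hpos, hp, hB with
    | [], hl, _, _, _, _ => simp at hl
    | [_], hl, _, _, _, _ => simp at hl
    | x1 :: x2 :: r, hl, hs, hpos, hp, hB =>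
      have e1 : ((x1 :: x2 :: r : List ℝ) : Multiset ℝ) = x1 ::ₘ x2 ::ₘ (r : Multiset ℝ) := rfl
      have p1 := hpos x1 (by simp)
      have p2 := hpos x2 (by simp)
      rw [List.pairwise_cons] at hp
      obtain ⟨q1, hp⟩ := hp
      rw [List.pairwise_cons] at hp
      obtain ⟨q2, hp⟩ := hp
      have q12 : ρ * x1 ≤ x2 := q1 x2 (by simp)
      have h12 : x1 ≤ x2 := by nlinarith
      have key : Reach (2 / ρ) (k + 1) ((r ++ [x1 + x2] : List ℝ) : Multiset ℝ) := by
        apply ih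
        · simp only [List.length_cons, List.length_append, List.length_nil] at hl ⊢; omega
        · simp only [List.sum_cons, List.sum_append, List.sum_nil] at hs ⊢; linarith
        · intro a ha
          rcases List.mem_append.1 ha with h | h
          · exact hpos a (by simp [h])
          · rw [List.mem_singleton.1 h]; linarith
        · rw [List.pairwise_append]
          refine ⟨hp, List.pairwise_singleton _ _, ?_⟩
          intro a ha b hb
          rw [List.mem_singleton.1 hb]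
          have := hB x1 (by simp) a (by simp [ha])
          have e : ρ * (2 / ρ * x1) = 2 * x1 := by field_simp
          have : ρ * a ≤ ρ * (2 / ρ * x1) := mul_le_mul_of_nonneg_left this hρ.le
          linarith
        · have hge : (1 : ℝ) ≤ 2 / ρ := by rw [le_div_iff₀ hρ]; linarith
          intro a ha b hb
          rcases List.mem_append.1 ha with h | h <;> rcases List.mem_append.1 hb with h' | h'
          · exact hB a (by simp [h]) b (by simp [h'])
          · rw [List.mem_singleton.1 h']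
            have u1 := q1 a (by simp [h])
            have u2 := q2 a h
            rw [div_mul_eq_mul_div, le_div_iff₀ hρ]
            linarith
          · rw [List.mem_singleton.1 h]
            have u := hB x1 (by simp) b (by simp [h'])
            have : 0 ≤ 2 / ρ * x2 := by positivity
            linarith
          · rw [List.mem_singleton.1 h, List.mem_singleton.1 h']
            nlinarith
      have e2 : ((r ++ [x1 + x2] : List ℝ) : Multiset ℝ) = (x1 + x2) ::ₘ (r : Multiset ℝ) := by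
        rw [Multiset.cons_coe, Multiset.coe_eq_coe]
        exact List.perm_append_singleton _ _
      rw [e2] at key
      rw [e1]
      refine Reach.step key ?_ ?_
      · intro x hx
        rw [← e1] at hx
        exact hpos x (by simpa using hx)
      · intro x hx y hy
        rw [← e1] at hx hy
        exact hB y (by simpa using hy) x (by simpa using hx)

/-- the configuration after `j` halvings -/
noncomputable def H (c r : ℝ) (m j : ℕ) : Multiset ℝ :=
  (((List.range (m - j)).map (fun i => c * r ^ (j + i)) : List ℝ) : Multiset ℝ) +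
    (((List.range j).map (fun i => c * r ^ i / 2) : List ℝ) : Multiset ℝ) +
    (((List.range j).map (fun i => c * r ^ i / 2) : List ℝ) : Multiset ℝ)

lemma mem_H {c r : ℝ} {m j : ℕ} {x : ℝ} (hx : x ∈ H c r m j) :
    (∃ i, j ≤ i ∧ i < m ∧ x = c * r ^ i) ∨ (∃ i, i < j ∧ x = c * r ^ i / 2) := by
  unfold H at hx
  rw [Multiset.mem_add, Multiset.mem_add] at hx
  rcases hx with (h | h) | h
  · left
    rw [Multiset.mem_coe, List.mem_map] at h
    obtain ⟨i, hi, rfl⟩ := h
    rw [List.mem_range] at hi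
    exact ⟨j + i, by omega, by omega, rfl⟩
  · right
    rw [Multiset.mem_coe, List.mem_map] at h
    obtain ⟨i, hi, rfl⟩ := h
    exact ⟨i, List.mem_range.1 hi, rfl⟩
  · right
    rw [Multiset.mem_coe, List.mem_map] at h
    obtain ⟨i, hi, rfl⟩ := h
    exact ⟨i, List.mem_range.1 hi, rfl⟩

lemma H_eq {c r : ℝ} {m j : ℕ} (h : j < m) :
    ∃ R : Multiset ℝ, H c r m j = (c * r ^ j / 2 + c * r ^ j / 2) ::ₘ R ∧
      H c r m (j + 1) = (c * r ^ j / 2) ::ₘ (c * r ^ j / 2) ::ₘ R := by
  refine ⟨(((List.range (m - (j + 1))).map (fun i => c * r ^ (j + 1 + i)) : List ℝ) : Multiset ℝ) +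
    (((List.range j).map (fun i => c * r ^ i / 2) : List ℝ) : Multiset ℝ) +
    (((List.range j).map (fun i => c * r ^ i / 2) : List ℝ) : Multiset ℝ), ?_, ?_⟩
  · unfold H
    have e : m - j = (m - (j + 1)) + 1 := by omega
    rw [e, List.range_succ_eq_map, List.map_cons, List.map_map, ← Multiset.cons_coe,
      Multiset.cons_add, Multiset.cons_add]
    congr 1
    · simp
    · congr 2
      congr 1
      apply List.map_congr_left
      intro i _
      simp only [Function.comp]
      congr 2; omega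
  · unfold H
    rw [List.range_succ, List.map_append, List.map_singleton]
    have e : (((List.range j).map (fun i => c * r ^ i / 2) ++ [c * r ^ j / 2] : List ℝ) : Multiset ℝ)
        = (c * r ^ j / 2) ::ₘ (((List.range j).map (fun i => c * r ^ i / 2) : List ℝ) : Multiset ℝ) := by
      rw [Multiset.cons_coe, Multiset.coe_eq_coe]
      exact List.perm_append_singleton _ _
    rw [e, Multiset.add_cons, Multiset.add_cons, Multiset.cons_add]

lemma H_bound {c r : ℝ} (hc : 0 < c) (hr0 : 0 < r) (hr1 : r ≤ 1) {m j : ℕ} (hj : j ≤ m)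
    (hrm : r ^ m = 1 / 2) {x y : ℝ} (hx : x ∈ H c r m j) (hy : y ∈ H c r m j) :
    x ≤ 2 * r * y := by
  have hp : ∀ i, 0 < r ^ i := fun i => pow_pos hr0 i
  have hp1 : ∀ i, r ^ i ≤ 1 := fun i => pow_le_one₀ hr0.le hr1
  have hmono : ∀ i i' : ℕ, i ≤ i' → r ^ i' ≤ r ^ i := fun i i' h => pow_le_pow_of_le_one hr0.le hr1 h
  rcases mem_H hx with ⟨i, hi1, hi2, rfl⟩ | ⟨i, hi, rfl⟩ <;>
    rcases mem_H hy with ⟨i', hi1', hi2', rfl⟩ | ⟨i', hi', rfl⟩
  · have h1 : r ^ m ≤ r ^ (i' + 1) := hmono _ _ (by omega)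
    rw [hrm, pow_succ] at h1
    have h2 := hp1 i
    nlinarith
  · have h1 : r ^ i ≤ r ^ (i' + 1) := hmono _ _ (by omega)
    rw [pow_succ] at h1
    nlinarith
  · have h1 : r ^ m ≤ r ^ (i' + 1) := hmono _ _ (by omega)
    rw [hrm, pow_succ] at h1
    have h2 := hp1 i
    nlinarith
  · have h1 : r ^ m ≤ r ^ (i' + 1) := hmono _ _ (by omega)
    rw [hrm, pow_succ] at h1
    have h2 := hp1 i
    nlinarith

lemma H_pos {c r : ℝ} (hc : 0 < c) (hr0 : 0 < r) {m j : ℕ} {x : ℝ} (hx : x ∈ H c r m j) :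
    0 < x := by
  rcases mem_H hx with ⟨i, _, _, rfl⟩ | ⟨i, _, rfl⟩ <;> positivity

lemma reach_H {c r : ℝ} (hc : 0 < c) (hr0 : 0 < r) (hr1 : r ≤ 1) {m : ℕ}
    (hrm : r ^ m = 1 / 2) (h0 : Reach (2 * r) m (H c r m 0)) :
    ∀ j, j ≤ m → Reach (2 * r) (m + j) (H c r m j) := by
  intro j
  induction j with
  | zero => intro _; exact h0
  | succ j ih =>
    intro hj
    have h := ih (by omega)
    obtain ⟨R, e1, e2⟩ := H_eq (c := c) (r := r) (m := m) (j := j) (by omega)
    rw [e1] at h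
    rw [e2]
    refine Reach.step h ?_ ?_
    · intro x hx
      rw [← e2] at hx
      exact H_pos hc hr0 hx
    · intro x hx y hy
      rw [← e2] at hx hy
      exact H_bound hc hr0 hr1 hj hrm hx hy

lemma exists_strategy (m : ℕ) (hm : 1 ≤ m) : ∃ S : ℕ → List ℝ, IsStrategy (2 * m) S ∧
    ∀ t, 1 ≤ t → t ≤ 2 * m → ∀ x ∈ S t, ∀ y ∈ S t, x ≤ (2 : ℝ) ^ (1 - 1 / (m : ℝ)) * y := by
  have hmR : (0 : ℝ) < m := by exact_mod_cast hm
  set r : ℝ := (2 : ℝ) ^ (-(1 / (m : ℝ))) with hr
  have hr0 : 0 < r := by positivity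
  have hr1 : r ≤ 1 := by
    apply Real.rpow_le_one_of_one_le_of_nonpos (by norm_num)
    have : 0 < 1 / (m : ℝ) := by positivity
    linarith
  have hrm : r ^ m = 1 / 2 := by
    rw [hr, ← Real.rpow_natCast, ← Real.rpow_mul (by norm_num)]
    have : -(1 / (m : ℝ)) * (m : ℝ) = -1 := by field_simp
    rw [this, Real.rpow_neg_one]; norm_num
  have hr2 : 1 / 2 ≤ r := by
    rw [← hrm]
    calc r ^ m ≤ r ^ 1 := pow_le_pow_of_le_one hr0.le hr1 hm
      _ = r := pow_one r
  have hB : (2 : ℝ) ^ (1 - 1 / (m : ℝ)) = 2 * r := by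
    rw [sub_eq_add_neg, Real.rpow_add (by norm_num), Real.rpow_one]
  -- the geometric configuration
  set s : ℝ := ((List.range m).map (fun i => r ^ i)).sum with hs
  have hspos : 0 < s := by
    have : 1 ≤ s := by
      rw [hs]
      obtain ⟨m', rfl⟩ : ∃ m', m = m' + 1 := ⟨m - 1, by omega⟩
      rw [List.range_succ_eq_map]
      simp only [List.map_cons, List.sum_cons, pow_zero]
      have : 0 ≤ (List.map (fun i => r ^ i) (List.map Nat.succ (List.range m'))).sum := by
        apply List.sum_nonneg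
        intro x hx
        rw [List.mem_map] at hx
        obtain ⟨i, _, rfl⟩ := hx
        positivity
      linarith
    linarith
  set c : ℝ := 1 / s with hc
  have hcpos : 0 < c := by positivity
  set G : List ℝ := ((List.range m).map (fun i => c * r ^ i)).reverse with hG
  have hGmem : ∀ x, x ∈ G → ∃ i, i < m ∧ x = c * r ^ i := by
    intro x hx
    rw [hG, List.mem_reverse, List.mem_map] at hx
    obtain ⟨i, hi, rfl⟩ := hx
    exact ⟨i, List.mem_range.1 hi, rfl⟩
  have hGH : (G : Multiset ℝ) = H c r m 0 := by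
    unfold H
    rw [hG, Multiset.coe_reverse]
    simp
  have hreach : Reach (2 / (1 / r)) (m - 1 + 1) (G : Multiset ℝ) := by
    apply reach_merge
    · rw [le_div_iff₀ hr0]; linarith
    · rw [div_le_iff₀ hr0]; linarith
    · rw [hG]; simp; omega
    · rw [hG, List.sum_reverse, List.sum_map_mul_left, ← hs, hc]
      field_simp
    · intro a ha
      obtain ⟨i, _, rfl⟩ := hGmem a ha
      positivity
    · rw [hG, List.pairwise_reverse, List.pairwise_map]
      refine List.Pairwise.imp ?_ (List.pairwise_lt_range (n := m))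
      intro i j hij
      have h : r ^ j ≤ r ^ (i + 1) := pow_le_pow_of_le_one hr0.le hr1 (by omega)
      rw [pow_succ] at h
      rw [div_mul_eq_mul_div, div_le_iff₀ hr0]
      nlinarith
    · intro a ha b hb
      have e : 2 / (1 / r) = 2 * r := by field_simp
      rw [e]
      have ha' : a ∈ H c r m 0 := by rw [← hGH]; simpa using ha
      have hb' : b ∈ H c r m 0 := by rw [← hGH]; simpa using hb
      exact H_bound hcpos hr0 hr1 (Nat.zero_le m) hrm hb' ha'
  have e : 2 / (1 / r) = 2 * r := by field_simp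
  rw [e, hGH, Nat.sub_add_cancel hm] at hreach
  have hfin := reach_H hcpos hr0 hr1 hrm hreach m le_rfl
  obtain ⟨_, S, hS, _, hb⟩ := hfin.exists (by linarith)
  refine ⟨S, by rw [two_mul]; exact hS, ?_⟩
  intro t h1 h2
  rw [hB]
  exact hb t h1 (by omega)

lemma IsStrategy.mono {n n' : ℕ} (h : n ≤ n') {S : ℕ → List ℝ} (hS : IsStrategy n' S) :
    IsStrategy n S :=
  ⟨fun t h1 h2 => hS.1 t h1 (h2.trans h), fun t h1 h2 => hS.2 t h1 (h2.trans_le h)⟩

lemma disc_isLeast (n : ℕ) (hn : 1 ≤ n) :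
    IsLeast {D : ℝ | ∃ S, IsStrategy n S ∧ D = discS n S}
      ((2 : ℝ) ^ (1 - 1 / (((n + 1) / 2 : ℕ) : ℝ))) := by
  constructor
  · obtain ⟨S, hS, hb⟩ := exists_strategy ((n + 1) / 2) (by omega)
    have hS' : IsStrategy n S := hS.mono (by omega)
    refine ⟨S, hS', le_antisymm (lower_bound hn hS') ?_⟩
    apply discS_le hn hS'
    intro t h1 h2 x hx y hy
    have hy0 := (hS'.1 t h1 h2).1.1 y hy
    rw [div_le_iff₀ hy0]
    exact hb t h1 (by omega) x hx y hy
  · rintro D ⟨S, hS, rfl⟩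
    exact lower_bound hn hS

lemma disc_eq (n : ℕ) (hn : 1 ≤ n) :
    disc n = (2 : ℝ) ^ (1 - 1 / (((n + 1) / 2 : ℕ) : ℝ)) :=
  (disc_isLeast n hn).csInf_eq


/-! ### Consequences for infinite strategies -/

lemma disc_eq_exp (n : ℕ) (hn : 1 ≤ n) :
    disc n = 2 * Real.exp (-(Real.log 2 / (((n + 1) / 2 : ℕ) : ℝ))) := by
  rw [disc_eq n hn, sub_eq_add_neg, Real.rpow_add (by norm_num), Real.rpow_one,
    Real.rpow_def_of_pos (by norm_num)]
  congr 2
  ring

lemma disc_upper (n : ℕ) (hn : 1 ≤ n) : (n : ℝ) * (2 - disc n) ≤ 4 * Real.log 2 := by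
  rw [disc_eq_exp n hn]
  set m := (n + 1) / 2 with hm
  have hm1 : 1 ≤ m := by omega
  have hmR : (0 : ℝ) < m := by exact_mod_cast hm1
  have hnm : (n : ℝ) ≤ 2 * m := by
    have : n ≤ 2 * m := by omega
    exact_mod_cast this
  have hlog : 0 < Real.log 2 := Real.log_pos (by norm_num)
  have h1 := Real.add_one_le_exp (-(Real.log 2 / (m : ℝ)))
  have h2 : 2 - 2 * Real.exp (-(Real.log 2 / (m : ℝ))) ≤ 2 * (Real.log 2 / m) := by linarith
  have hn0 : (0 : ℝ) ≤ n := Nat.cast_nonneg n
  calc (n : ℝ) * (2 - 2 * Real.exp (-(Real.log 2 / (m : ℝ)))) ≤ n * (2 * (Real.log 2 / m)) :=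
        mul_le_mul_of_nonneg_left h2 hn0
    _ ≤ (2 * m) * (2 * (Real.log 2 / m)) := by
        apply mul_le_mul_of_nonneg_right hnm; positivity
    _ = 4 * Real.log 2 := by field_simp; norm_num

lemma disc_lower (n : ℕ) (hn : 1 ≤ n) :
    4 * Real.log 2 - 12 * Real.log 2 / n ≤ (n : ℝ) * (2 - disc n) := by
  rw [disc_eq_exp n hn]
  set m := (n + 1) / 2 with hm
  have hm1 : 1 ≤ m := by omega
  have hmR : (0 : ℝ) < m := by exact_mod_cast hm1
  have hmR1 : (1 : ℝ) ≤ m := by exact_mod_cast hm1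
  have hnm : 2 * (m : ℝ) - 1 ≤ n := by
    have : 2 * m ≤ n + 1 := by omega
    have h : (2 : ℝ) * m ≤ n + 1 := by exact_mod_cast this
    linarith
  have hnm2 : (n : ℝ) ≤ 2 * m := by
    have : n ≤ 2 * m := by omega
    exact_mod_cast this
  have hn0 : (0 : ℝ) < n := by exact_mod_cast hn
  have hlog : 0 < Real.log 2 := Real.log_pos (by norm_num)
  have hlog1 : Real.log 2 ≤ 1 := by
    have := Real.log_two_lt_d9; linarith
  set x : ℝ := Real.log 2 / m with hx
  have hx0 : 0 < x := by positivity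
  have hxm : x ≤ 1 / m := by rw [hx]; gcongr
  have h1 : Real.exp (-x) ≤ 1 / (1 + x) := by
    rw [Real.exp_neg, ← one_div]
    apply one_div_le_one_div_of_le (by positivity)
    have := Real.add_one_le_exp x
    linarith
  have h2 : 1 / (1 + x) ≤ 1 - x + x ^ 2 := by
    rw [div_le_iff₀ (by positivity)]
    nlinarith [pow_pos hx0 3]
  have h3 : 2 * (x * (1 - x)) ≤ 2 - 2 * Real.exp (-x) := by nlinarith
  have hx1 : x ≤ 1 := hxm.trans (by rw [div_le_one hmR]; exact hmR1)
  have hxx : 0 ≤ x * (1 - x) := mul_nonneg hx0.le (by linarith)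
  have h4 : (2 * (m : ℝ) - 1) * (2 * (x * (1 - x))) ≤ (n : ℝ) * (2 - 2 * Real.exp (-x)) := by
    calc (2 * (m : ℝ) - 1) * (2 * (x * (1 - x))) ≤ n * (2 * (x * (1 - x))) :=
          mul_le_mul_of_nonneg_right hnm (by positivity)
      _ ≤ _ := mul_le_mul_of_nonneg_left h3 hn0.le
  refine le_trans ?_ h4
  have hmx : (m : ℝ) * x = Real.log 2 := by rw [hx]; field_simp
  have e : (2 * (m : ℝ) - 1) * (2 * (x * (1 - x))) =
      4 * (m * x) - 4 * (m * x) * x - 2 * x + 2 * x ^ 2 := by ring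
  rw [e, hmx]
  have h5 : 12 * Real.log 2 / n ≥ 6 * x := by
    rw [hx, ge_iff_le, ← mul_div_assoc, div_le_div_iff₀ hmR hn0]
    nlinarith
  have h6 : 4 * Real.log 2 * x ≤ 4 * x := by nlinarith
  nlinarith [sq_nonneg x]

/-- An infinite strategy. -/
def IsInfStrategy (S : ℕ → List ℝ) : Prop := ∀ n, IsStrategy n S

lemma one_le_mul_mx {S : ℕ → List ℝ} (hS : IsInfStrategy S) {t : ℕ} (ht : 1 ≤ t) :
    1 ≤ (t : ℝ) * mx (S t) := by
  have h := ((hS t).1 t ht le_rfl)
  have h1 : (S t).sum ≤ (S t).length • mx (S t) := List.sum_le_card_nsmul _ _ (fun x hx => le_mx hx)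
  rw [h.1.2, h.2, nsmul_eq_mul] at h1
  exact h1

lemma one_sub_le {t : ℕ} {α : ℝ} (hα : 1 ≤ α) :
    ((t : ℝ) + 1) ^ α * (1 - α / ((t : ℝ) + 1)) ≤ (t : ℝ) ^ α := by
  have h0 : (0 : ℝ) < (t : ℝ) + 1 := by positivity
  have h1 : (-1 : ℝ) ≤ -(1 / ((t : ℝ) + 1)) := by
    have : 1 / ((t : ℝ) + 1) ≤ 1 := by
      rw [div_le_one h0]
      have : (0 : ℝ) ≤ t := Nat.cast_nonneg t
      linarith
    linarith
  have h2 := one_add_mul_self_le_rpow_one_add h1 hα
  have e1 : 1 + -(1 / ((t : ℝ) + 1)) = t / ((t : ℝ) + 1) := by field_simp; ring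
  have e2 : 1 + α * -(1 / ((t : ℝ) + 1)) = 1 - α / ((t : ℝ) + 1) := by ring
  rw [e1, e2] at h2
  calc ((t : ℝ) + 1) ^ α * (1 - α / ((t : ℝ) + 1)) ≤ ((t : ℝ) + 1) ^ α * (t / ((t : ℝ) + 1)) ^ α :=
        mul_le_mul_of_nonneg_left h2 (by positivity)
    _ = (t : ℝ) ^ α := by
        rw [← Real.mul_rpow h0.le (by positivity)]
        congr 1; field_simp

lemma limsup_part (S : ℕ → List ℝ) (hS : IsInfStrategy S) (c : ℝ)
    (hc : c < 4 * Real.log 2 - 2) :
    ∃ᶠ n : ℕ in atTop, c ≤ (n : ℝ) * (discS n S - disc n) := by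
  by_contra hcon
  rw [Filter.not_frequently] at hcon
  have hcon' : ∀ᶠ n : ℕ in atTop, (n : ℝ) * (discS n S - disc n) < c :=
    hcon.mono (fun n h => not_le.1 h)
  set β : ℝ := 4 * Real.log 2 - c with hβ
  have hβ2 : 2 < β := by linarith
  set α : ℝ := (β / 2 + 1) / 2 with hα
  have hα1 : 1 < α := by linarith
  have hαβ : 2 * α < β := by linarith
  have hev : ∀ᶠ n : ℕ in atTop, 12 * Real.log 2 / (n : ℝ) < β - 2 * α := by
    have : Tendsto (fun n : ℕ => 12 * Real.log 2 / (n : ℝ)) atTop (𝓝 0) :=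
      tendsto_const_div_atTop_nhds_zero_nat _
    exact this.eventually_lt_const (by linarith)
  obtain ⟨N0, hN0⟩ := Filter.eventually_atTop.1 (hcon'.and hev)
  set N := max N0 1 with hN
  have hN1 : 1 ≤ N := le_max_right _ _
  have hmain : ∀ n, N ≤ n → discS n S ≤ 2 - 2 * α / n := by
    intro n hn
    obtain ⟨h1, h2⟩ := hN0 n ((le_max_left _ _).trans hn)
    have hn1 : 1 ≤ n := hN1.trans hn
    have hn0 : (0 : ℝ) < n := by exact_mod_cast hn1
    have h3 := disc_lower n hn1
    have h4 : 2 * α ≤ (n : ℝ) * (2 - discS n S) := by nlinarith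
    have h5 : 2 * α / n ≤ 2 - discS n S := by
      rw [div_le_iff₀ hn0]; linarith
    linarith
  have hstep : ∀ t, N ≤ t → ((t + 1 : ℕ) : ℝ) ^ α * mx (S (t + 1)) ≤ (t : ℝ) ^ α * mx (S t) := by
    intro t ht
    have ht1 : 1 ≤ t := hN1.trans ht
    have hS1 := hS (t + 1)
    have hpos := mx_pos (hS t) ht1 le_rfl
    have hD0 : 0 ≤ discS (t + 1) S := by
      have h := le_discS (n := t + 1) (S := S) (t := t + 1) (by omega) le_rfl
        (mx_mem' hS1 (by omega) le_rfl) (mx_mem' hS1 (by omega) le_rfl)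
      have : 0 < mx (S (t + 1)) / mx (S (t + 1)) := by
        have := mx_pos hS1 (t := t + 1) (by omega) le_rfl
        positivity
      linarith
    have h1 := step_le (D := discS (t + 1) S) hS1 ht1 (by omega) hD0 (by
      intro x hx y hy
      have := le_discS (n := t + 1) (S := S) (t := t + 1) (by omega) le_rfl hx hy
      have hy0 := (hS1.1 (t + 1) (by omega) le_rfl).1.1 y hy
      rwa [div_le_iff₀ hy0] at this)
    have h2 := hmain (t + 1) (by omega)
    have e : ((t + 1 : ℕ) : ℝ) = (t : ℝ) + 1 := by push_cast; ring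
    rw [e] at h2 ⊢
    have h3 : discS (t + 1) S / 2 ≤ 1 - α / ((t : ℝ) + 1) := by
      have : 2 * α / ((t : ℝ) + 1) = 2 * (α / ((t : ℝ) + 1)) := by ring
      linarith
    have h4 : mx (S (t + 1)) ≤ (1 - α / ((t : ℝ) + 1)) * mx (S t) :=
      h1.trans (mul_le_mul_of_nonneg_right h3 hpos.le)
    calc ((t : ℝ) + 1) ^ α * mx (S (t + 1))
        ≤ ((t : ℝ) + 1) ^ α * ((1 - α / ((t : ℝ) + 1)) * mx (S t)) :=
          mul_le_mul_of_nonneg_left h4 (by positivity)
      _ = (((t : ℝ) + 1) ^ α * (1 - α / ((t : ℝ) + 1))) * mx (S t) := by ring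
      _ ≤ (t : ℝ) ^ α * mx (S t) := mul_le_mul_of_nonneg_right (one_sub_le hα1.le) hpos.le
  have hbd : ∀ k : ℕ, ((N + k : ℕ) : ℝ) ^ α * mx (S (N + k)) ≤ (N : ℝ) ^ α * mx (S N) := by
    intro k
    induction k with
    | zero => simp
    | succ k ih => exact (hstep (N + k) (by omega)).trans ih
  have hlow : ∀ k : ℕ, ((N + k : ℕ) : ℝ) ^ (α - 1) ≤ (N : ℝ) ^ α * mx (S N) := by
    intro k
    refine le_trans ?_ (hbd k)
    have ht1 : 1 ≤ N + k := by omega
    have ht0 : (0 : ℝ) < ((N + k : ℕ) : ℝ) := by exact_mod_cast ht1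
    have h := one_le_mul_mx hS ht1
    have e : ((N + k : ℕ) : ℝ) ^ α = ((N + k : ℕ) : ℝ) ^ (α - 1) * ((N + k : ℕ) : ℝ) := by
      have := Real.rpow_add ht0 (α - 1) 1
      rw [Real.rpow_one] at this
      rw [← this]; congr 1; ring
    rw [e, mul_assoc]
    have hp : 0 ≤ ((N + k : ℕ) : ℝ) ^ (α - 1) := by positivity
    nlinarith
  have htend : Tendsto (fun k : ℕ => ((N + k : ℕ) : ℝ) ^ (α - 1)) atTop atTop := by
    have h1 : Tendsto (fun x : ℝ => x ^ (α - 1)) atTop atTop := tendsto_rpow_atTop (by linarith)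
    have h2 : Tendsto (fun k : ℕ => ((N + k : ℕ) : ℝ)) atTop atTop := by
      apply tendsto_natCast_atTop_atTop.comp
      exact tendsto_atTop_mono (fun k => Nat.le_add_left k N) tendsto_id
    exact h1.comp h2
  obtain ⟨k, hk⟩ := (htend.eventually_gt_atTop ((N : ℝ) ^ α * mx (S N))).exists
  exact absurd (hlow k) (not_le.2 hk)

lemma q1_iff (S : ℕ → List ℝ) :
    (∃ c : ℝ, 0 < c ∧ ∀ᶠ n : ℕ in atTop, c ≤ (n : ℝ) * (discS n S - disc n)) ↔
      ∃ c : ℝ, c < 4 * Real.log 2 ∧ ∀ᶠ n : ℕ in atTop, 2 - c / n ≤ discS n S := by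
  constructor
  · rintro ⟨c, hc, h⟩
    refine ⟨4 * Real.log 2 - c, by linarith, ?_⟩
    filter_upwards [h, Filter.eventually_ge_atTop 1] with n hn hn1
    have hn0 : (0 : ℝ) < n := by exact_mod_cast hn1
    have h1 := disc_upper n hn1
    have h2 : (n : ℝ) * (2 - discS n S) ≤ 4 * Real.log 2 - c := by nlinarith
    have h3 : 2 - discS n S ≤ (4 * Real.log 2 - c) / n := by
      rw [le_div_iff₀ hn0]; linarith
    linarith
  · rintro ⟨c, hc, h⟩
    refine ⟨(4 * Real.log 2 - c) / 2, by linarith, ?_⟩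
    have hev : ∀ᶠ n : ℕ in atTop, 12 * Real.log 2 / (n : ℝ) < (4 * Real.log 2 - c) / 2 := by
      have : Tendsto (fun n : ℕ => 12 * Real.log 2 / (n : ℝ)) atTop (𝓝 0) :=
        tendsto_const_div_atTop_nhds_zero_nat _
      exact this.eventually_lt_const (by linarith)
    filter_upwards [h, hev, Filter.eventually_ge_atTop 1] with n hn hn' hn1
    have hn0 : (0 : ℝ) < n := by exact_mod_cast hn1
    have h1 := disc_lower n hn1
    have h3 : 2 - discS n S ≤ c / n := by linarith
    rw [le_div_iff₀ hn0] at h3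
    nlinarith

end V11216.IS
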